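import Pool.Agent.Lib.MP_9d05bc_co.Main

open Pool.Agent.Lib.MP_9d05bc_co
open scoped ENNReal

/-- The conjectured formula fails for `d = 5`:
`RT(C_5) ≤ 1320/641 < E^*(u_9)`. -/
theorem Pool.Agent.Results.MP_9d05bc_co.FiveLetters.result :
    RT 5 ≤ (1320 / 641 : ℝ≥0∞) ∧ (1320 / 641 : ℝ≥0∞) < asympCritExp (uSeq (2 * 5 - 1)) :=
  ⟨RT_five, asymp_u9⟩
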